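import Pool.Agent.Helper66.NI.Stmts

set_option autoImplicit false

open MeasureTheory
open scoped ENNReal

namespace Pool.Agent.Helper66.NI

theorem apx_dense (Ω : Type) [MeasurableSpace Ω] (μ : Measure Ω) [IsFiniteMeasure μ]
    (U : Set (Lp ℝ 4 μ)) (hU : IsOpen U) (hne : U.Nonempty) :
    ∃ g : SimpleFunc Ω ℝ, toL (μ := μ) g ∈ U := by
  have hd : DenseRange ((↑) : Lp.simpleFunc ℝ 4 μ → Lp ℝ 4 μ) :=
    Lp.simpleFunc.denseRange (by norm_num)
  obtain ⟨f, hf⟩ := hd.exists_mem_open hU hne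
  refine ⟨Lp.simpleFunc.toSimpleFunc f, ?_⟩
  have h1 : toL (μ := μ) (Lp.simpleFunc.toSimpleFunc f) = (f : Lp ℝ 4 μ) := by
    have h2 := Lp.simpleFunc.toLp_toSimpleFunc f
    have h3 := congrArg (fun t : Lp.simpleFunc ℝ 4 μ => (t : Lp ℝ 4 μ)) h2
    exact h3
  rw [h1]
  exact hf

theorem apx_smul (Ω : Type) [MeasurableSpace Ω] (μ : Measure Ω) [IsFiniteMeasure μ]
    (c : ℝ) (g : SimpleFunc Ω ℝ) : toL (μ := μ) (c • g) = c • toL (μ := μ) g := by
  unfold toL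
  rw [← MemLp.toLp_const_smul]
  rfl

theorem st_APX : ST_APX := by
  intro Ω _ μ _ T hT δ hδ hδ1
  obtain ⟨x, hx1, hx2⟩ := ContinuousLinearMap.exists_lt_apply_of_lt_opNorm T
    (show (1 - δ) < ‖T‖ by rw [hT]; linarith)
  obtain ⟨g0, hg1, hg2⟩ := apx_dense Ω μ {z | ‖z‖ < 1 ∧ 1 - δ < ‖T z‖}
    ((isOpen_lt continuous_norm continuous_const).inter
      (isOpen_lt continuous_const (T.continuous.norm))) ⟨x, hx1, hx2⟩
  have hg3 : 0 < ‖toL (μ := μ) g0‖ := by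
    rw [norm_pos_iff]
    intro h0
    rw [h0, map_zero, norm_zero] at hg2
    linarith
  set c : ℝ := ‖toL (μ := μ) g0‖⁻¹ with hc
  have hcpos : 0 < c := inv_pos.2 hg3
  have hc1 : 1 ≤ c := (one_le_inv₀ hg3).2 hg1.le
  have hz : ‖toL (μ := μ) (c • g0)‖ = 1 := by
    rw [apx_smul, norm_smul, Real.norm_of_nonneg hcpos.le, hc, inv_mul_cancel₀ hg3.ne']
  have hTz : 1 - δ ≤ ‖T (toL (μ := μ) (c • g0))‖ := by
    rw [apx_smul, map_smul, norm_smul, Real.norm_of_nonneg hcpos.le]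
    have h1 := norm_nonneg (T (toL (μ := μ) g0))
    nlinarith
  obtain ⟨y, hy⟩ := apx_dense Ω μ (Metric.ball (T (toL (μ := μ) (c • g0))) δ) Metric.isOpen_ball
    ⟨_, Metric.mem_ball_self hδ⟩
  refine ⟨SimpleFunc.pair (c • g0) y, ?_, ?_, ?_⟩
  · have : (SimpleFunc.pair (c • g0) y).map Prod.fst = c • g0 := by ext; rfl
    rw [this]; exact hz
  · have : (SimpleFunc.pair (c • g0) y).map Prod.fst = c • g0 := by ext; rfl
    rw [this]; exact hTz
  · have h1 : (SimpleFunc.pair (c • g0) y).map Prod.fst = c • g0 := by ext; rfl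
    have h2 : (SimpleFunc.pair (c • g0) y).map Prod.snd = y := by ext; rfl
    rw [h1, h2, norm_sub_rev]
    rw [Metric.mem_ball, dist_eq_norm] at hy
    exact hy.le

end Pool.Agent.Helper66.NI
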